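import Pool.Agent.H26.ES.Targets
import Pool.Agent.H45.LV.G
import Pool.Agent.H58.CLV.TO
import Pool.Agent.H75.CLV.MP

/-!
# MP_e21eee_nt, board est_modules: row GMP (helper35), model `H45/LV/G.lean`
-/

set_option autoImplicit false

open Finset MeasureTheory

namespace Pool.Agent.H35.EST

open Pool.Agent.H24.CL Pool.Agent.H24.LV Pool.Agent.H26.ES Pool.Agent.H45.LV Pool.Agent.H67.CLV

/-- the mass of the good points, with the number of the points modulo `H k q 1` -/
theorem mass_le (hTO : T_TO) (hMP : T_MP) (hAI : L_AI) {k q : ℕ} (hq : 1 ≤ q)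
    {A V : Set (X k)} {τ ν : ℝ} (hA : MeasurableSet A) (hV : MeasurableSet V)
    (hG : MeasurableSet (GdL k q A V τ)) (hC : Cnt (H k q 1) A ν) :
    (q : ℝ) ^ k * volume.real {a : X k | a ∈ A ∧ τ ≤ hd q V a} ≤
      ν * volume.real (GdL k q A V τ) := by
  classical
  have hT := hTO k q hq
  have hHF : ∀ a : X k, a ∈ HF k q 1 ↔ a ∈ H k q 1 := hT.2.1 1
  have hcard : (HF k q 1).card = q ^ k := by
    have := hT.2.2.1 1
    rwa [one_mul] at this
  have hdm := hd_meas hMP hq hV
  have hτm : MeasurableSet {a : X k | τ ≤ hd q V a} := measurableSet_le measurable_const hdm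
  set B0 : Set (X k) := {a : X k | a ∈ A ∧ τ ≤ hd q V a} with hB0
  have hB0m : MeasurableSet B0 := hA.inter hτm
  have hne : (HF k q 1).Nonempty := by
    rw [← card_pos, hcard]
    positivity
  have hFm : Measurable (B0.indicator (fun _ => (1 : ℝ))) := measurable_const.indicator hB0m
  have hFb : ∀ a : X k, |B0.indicator (fun _ => (1 : ℝ)) a| ≤ 1 := by
    intro a
    by_cases h : a ∈ B0
    · rw [Set.indicator_of_mem h, abs_one]
    · rw [Set.indicator_of_notMem h, abs_zero]; norm_num
  have h1 := hAI k (HF k q 1) (B0.indicator (fun _ => (1 : ℝ))) 1 hne hFm hFb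
  have h2 : ∫ a : X k, B0.indicator (fun _ => (1 : ℝ)) a = (volume : Measure (X k)).real B0 := by
    rw [integral_indicator_const _ hB0m]; simp
  rw [h2, hcard] at h1
  have hq0 : (0 : ℝ) < (q : ℝ) ^ k := by
    have : (0 : ℝ) < q := by exact_mod_cast hq
    positivity
  have h3 : (q : ℝ) ^ k * (volume : Measure (X k)).real B0 =
      ∫ a : X k, ∑ κ ∈ HF k q 1, B0.indicator (fun _ => (1 : ℝ)) (a + κ) := by
    rw [h1]
    push_cast
    field_simp
  rw [h3]
  have h4 : ∫ a : X k, (GdL k q A V τ).indicator (fun _ => ν) a =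
      ν * (volume : Measure (X k)).real (GdL k q A V τ) := by
    rw [integral_indicator_const _ hG]
    simp [mul_comm]
  rw [← h4]
  refine integral_mono ?_ ?_ ?_
  · refine integrable_finset_sum _ fun κ _ => ?_
    exact intbd (hFm.comp (measurable_add_const κ)) (fun a => hFb _)
  · exact (integrable_const ν).indicator hG
  · intro a
    change ∑ κ ∈ HF k q 1, B0.indicator (fun _ => (1 : ℝ)) (a + κ) ≤
      (GdL k q A V τ).indicator (fun _ => ν) a
    have h5 : ∑ κ ∈ HF k q 1, B0.indicator (fun _ => (1 : ℝ)) (a + κ) =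
        (((HF k q 1).filter (fun κ => a + κ ∈ B0)).card : ℝ) := by
      rw [card_filter]
      push_cast
      refine sum_congr rfl fun κ _ => ?_
      by_cases h : a + κ ∈ B0
      · rw [Set.indicator_of_mem h, if_pos h]
      · rw [Set.indicator_of_notMem h, if_neg h]
    rw [h5]
    by_cases ha : a ∈ GdL k q A V τ
    · rw [Set.indicator_of_mem ha]
      have h6 := hC (((HF k q 1).filter (fun κ => a + κ ∈ B0)).image (fun κ => a + κ)) (by
        intro y hy
        obtain ⟨κ, hκ, rfl⟩ := mem_image.1 hy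
        exact (mem_filter.1 hκ).2.1) (by
        intro y hy y' hy'
        obtain ⟨κ, hκ, rfl⟩ := mem_image.1 hy
        obtain ⟨κ', hκ', rfl⟩ := mem_image.1 hy'
        have h7 : a + κ - (a + κ') = κ - κ' := by abel
        rw [h7]
        exact (H k q 1).sub_mem ((hHF κ).1 (mem_filter.1 hκ).1)
          ((hHF κ').1 (mem_filter.1 hκ').1))
      rwa [card_image_of_injective _ (add_right_injective a)] at h6
    · rw [Set.indicator_of_notMem ha]
      have h6 : (HF k q 1).filter (fun κ => a + κ ∈ B0) = ∅ := by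
        rw [filter_eq_empty_iff]
        intro κ hκ h7
        apply ha
        refine ⟨⟨κ, (hHF κ).1 hκ, h7.1⟩, ?_⟩
        have := h7.2
        rwa [hd_add hTO hq V a κ ((hHF κ).1 hκ)] at this
      rw [h6]; simp

theorem pf_GMP (hGM : L_GM) (hSHP : T_SHP) (hCO : L_CO) (hAI : L_AI) : T_GMP := by
  classical
  intro k q hk hqp hkq A V τ ν m hA hV hτ hν hm hCm hCν
  have hq : 1 ≤ q := hqp.one_lt.le
  have hq0 : (0 : ℝ) < q := by exact_mod_cast hq
  have hTO : T_TO := Pool.Agent.H58.CLV.pf_TO
  have hMP : T_MP := Pool.Agent.H75.CLV.pf_MP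
  obtain ⟨g1, g2, g3, -, -, -⟩ := hGM k q hk hq A V τ m hA hV hτ hm hCm
  have hKr : ∀ (y : ℕ) (a : X k), a ∈ Kr k q y ↔ phi q y a = 0 :=
    fun y => (hCO.2.2.2.1 k q y hq).2
  set G : Set (X k) := GdL k q A V τ with hG
  have hUm : ∀ y, MeasurableSet (Uns k q G y) := by
    intro y
    have e : Uns k q G y = G ∩ ⋂ κ ∈ (Kr k q y).filter (fun κ => κ ∉ H k q 1),
        {a : X k | a + κ ∈ G}ᶜ := by
      ext a
      simp only [Uns, Set.mem_inter_iff, Set.mem_iInter, Set.mem_compl_iff, mem_filter]
      constructor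
      · rintro ⟨h1, h2⟩
        exact ⟨h1, fun κ hκ h3 => hκ.2 (h2 κ hκ.1 h3)⟩
      · rintro ⟨h1, h2⟩
        refine ⟨h1, fun κ hκ h3 => ?_⟩
        by_contra h4
        exact h2 κ ⟨hκ, h4⟩ h3
    rw [e]
    refine g1.inter (Finset.measurableSet_biInter _ fun κ _ => ?_)
    exact ((measurable_add_const κ) g1).compl
  refine ⟨hUm, fun y a ha => ha.1, ?_, ?_, mass_le hTO hMP hAI hq hA hV g1 hCν, ?_⟩
  · rintro y a ⟨h1, h2⟩ h hh
    refine ⟨g2 a h1 h hh, fun κ hκ h3 => h2 κ hκ ?_⟩
    have h4 := g2 _ h3 (-h) ((H k q 1).neg_mem hh)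
    have e : a + h + κ + -h = a + κ := by abel
    rwa [e] at h4
  · rintro y - a ⟨h1, h2⟩ a' ⟨h1', h2'⟩ he
    have h3 := h2 (a' - a) ((hKr y _).2 (by rw [map_sub, he, sub_self])) (by
      have e : a + (a' - a) = a' := by abel
      rw [e]
      exact h1')
    have e : a - a' = -(a' - a) := by abel
    rw [e]
    exact (H k q 1).neg_mem h3
  · -- the mass
    have hCM : CntM (H k q k) (H k q 1) G m := g3 (H k q k) (H_one_le hk) m hCm
    have hUV : ∀ y, MeasurableSet {a : X k | a ∈ Uns k q G y ∧ phi q y a ∈ V} := fun y =>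
      (hUm y).inter (((hMP k q y hq).1.measurable) hV)
    have key : ∀ a : X k, G.indicator (fun _ => τ * q - k * m) a ≤
        ∑ y ∈ range q, {a : X k | a ∈ Uns k q G y ∧ phi q y a ∈ V}.indicator
          (fun _ => (1 : ℝ)) a := by
      intro a
      by_cases ha : a ∈ G
      · rw [Set.indicator_of_mem ha]
        have h1 : ∑ y ∈ range q, {a : X k | a ∈ Uns k q G y ∧ phi q y a ∈ V}.indicator
            (fun _ => (1 : ℝ)) a =
            (((range q).filter fun y => a ∈ Uns k q G y ∧ phi q y a ∈ V).card : ℝ) := by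
          rw [card_filter]
          push_cast
          refine sum_congr rfl fun y _ => ?_
          by_cases h : a ∈ Uns k q G y ∧ phi q y a ∈ V
          · rw [if_pos h, Set.indicator_of_mem (by exact h)]
          · rw [if_neg h, Set.indicator_of_notMem (by exact h)]
        rw [h1]
        have h2 : τ * q ≤ ((pos q V a).card : ℝ) := by
          have h3 : τ ≤ hd q V a := ha.2
          unfold hd at h3
          rwa [le_div_iff₀ hq0] at h3
        have h4 := hSHP.2 k q G m hk hqp hkq hm hCM a ha
          ((range q).filter fun y => a ∉ Uns k q G y) (filter_subset _ _)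
          (fun b hb => (mem_filter.1 hb).2)
        have h5 : pos q V a ⊆ ((range q).filter fun y => a ∈ Uns k q G y ∧ phi q y a ∈ V) ∪
            ((range q).filter fun y => a ∉ Uns k q G y) := by
          intro y hy
          unfold pos at hy
          rw [mem_filter] at hy
          by_cases h6 : a ∈ Uns k q G y
          · exact mem_union_left _ (mem_filter.2 ⟨hy.1, h6, hy.2⟩)
          · exact mem_union_right _ (mem_filter.2 ⟨hy.1, h6⟩)
        have h6 : ((pos q V a).card : ℝ) ≤
            (((range q).filter fun y => a ∈ Uns k q G y ∧ phi q y a ∈ V).card : ℝ) +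
            (((range q).filter fun y => a ∉ Uns k q G y).card : ℝ) := by
          exact_mod_cast (card_le_card h5).trans (card_union_le _ _)
        linarith
      · rw [Set.indicator_of_notMem ha]
        refine sum_nonneg fun y _ => Set.indicator_nonneg (fun _ _ => zero_le_one) _
    have hi : ∫ a : X k, G.indicator (fun _ => τ * q - k * m) a ≤
        ∫ a : X k, ∑ y ∈ range q, {a : X k | a ∈ Uns k q G y ∧ phi q y a ∈ V}.indicator
          (fun _ => (1 : ℝ)) a := by
      refine integral_mono ((integrable_const _).indicator g1) ?_ key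
      refine integrable_finset_sum _ fun y _ => ?_
      exact (integrable_const _).indicator (hUV y)
    rw [integral_indicator_const _ g1, integral_finset_sum _ fun y _ =>
      (integrable_const _).indicator (hUV y)] at hi
    have h7 : ∑ y ∈ range q, ∫ a : X k, {a : X k | a ∈ Uns k q G y ∧ phi q y a ∈ V}.indicator
          (fun _ => (1 : ℝ)) a =
        ∑ y ∈ range q, volume.real {a : X k | a ∈ Uns k q G y ∧ phi q y a ∈ V} := by
      refine sum_congr rfl fun y _ => ?_
      rw [integral_indicator_const _ (hUV y)]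
      simp
    rw [h7, smul_eq_mul] at hi
    have h8 : (τ - k * m / q) * volume.real G =
        (1 / (q : ℝ)) * (volume.real G * (τ * q - k * m)) := by
      field_simp
    rw [h8]
    exact mul_le_mul_of_nonneg_left hi (by positivity)

end Pool.Agent.H35.EST
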